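import Pool.Agent.helper71.CL.Spec

set_option autoImplicit false

open MeasureTheory Set Filter Topology
open scoped ENNReal
open Pool.Agent.helper81.CW

noncomputable section

namespace Pool.Agent.CL

theorem MVN_alg (a b : ℝ≥0∞) (w : ℝ) (hw : 0 < w) (n : ℕ) :
    a / (ENNReal.ofReal (w ^ n) * b) = ENNReal.ofReal (w⁻¹ ^ n) * a / b := by
  have h0 : ENNReal.ofReal (w ^ n) ≠ 0 := by
    rw [Ne, ENNReal.ofReal_eq_zero, not_le]
    positivity
  have h1 : ENNReal.ofReal (w ^ n) ≠ ∞ := ENNReal.ofReal_ne_top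
  have h2 : ENNReal.ofReal (w⁻¹ ^ n) = (ENNReal.ofReal (w ^ n))⁻¹ := by
    rw [inv_pow, ENNReal.ofReal_inv_of_pos (by positivity)]
  rw [h2, ENNReal.div_eq_inv_mul, ENNReal.div_eq_inv_mul,
    ENNReal.mul_inv (Or.inl h0) (Or.inl h1)]
  ring

/-- Normalisation of the width. -/
theorem MVN (hJ3 : J3_stmt) : MVN_stmt := by
  intro n
  apply le_antisymm
  · refine le_iInf ?_
    rintro ⟨C, hC⟩
    exact iInf_le (fun p : {p : Set (E n) × ℝ // ConstWidth p.1 p.2} =>
        volume p.1.1 / volume (Metric.closedBall (0 : E n) (p.1.2 / 2))) ⟨(C, 1), hC⟩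
  · unfold mvol
    refine le_iInf ?_
    rintro ⟨⟨C, w⟩, hC⟩
    have hw : 0 < w := hC.2.2.2.1
    obtain ⟨h1, h2⟩ := hJ3 n C w w⁻¹ 0 hC (inv_pos.mpr hw)
    rw [inv_mul_cancel₀ hw.ne'] at h1
    have h3 := iInf_le (fun C : {C : Set (E n) // ConstWidth C 1} =>
      volume C.1 / volume (Metric.closedBall (0 : E n) (1 / 2))) ⟨_, h1⟩
    refine h3.trans (le_of_eq ?_)
    have h4 : volume (Metric.closedBall (0 : E n) (w / 2)) =
        ENNReal.ofReal (w ^ n) * volume (Metric.closedBall (0 : E n) (1 / 2)) := by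
      have h5 := Measure.addHaar_closedBall_mul (volume : Measure (E n)) (0 : E n) hw.le
        (show (0 : ℝ) ≤ 1 / 2 by norm_num)
      rw [finrank_euclideanSpace_fin] at h5
      rw [← h5]
      congr 2
      ring
    show volume ((fun x => w⁻¹ • (x - 0)) '' C) / volume (Metric.closedBall (0 : E n) (1 / 2)) =
      volume C / volume (Metric.closedBall (0 : E n) (w / 2))
    rw [h2, h4, MVN_alg _ _ w hw n]

end Pool.Agent.CL
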